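import Mathlib
import Pool.Agent.Helper606_LC.Pr2

/-!
# Fields of values and automizers of cyclic subgroups

Let `G` be a finite group. For a prime `q` let `ρ q` be the largest rank of an elementary abelian
`q`-subgroup of a group `N_G(C) / C_G(C)` with `C` a cyclic subgroup of `G` of order prime to `q`. If
`ρ 2 ≤ 3`, or `ρ q < q - 1` for all odd primes `q` dividing the order of `G`, then for every
nonlinear irreducible complex character `χ` of `G` some proper subgroup `H` of `G` has a linear
character `μ`, a constituent of the restriction of `χ` to `H`, whose field of values contains that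
of `χ` and has degree at most `χ(1)` over it.
-/

set_option autoImplicit false

namespace Pool.Agent.Results.MP_79850a_al.AutomizerRank

open Pool.Agent.Helper606_LC Pool.Agent.W446.AS

/-- The field generated over `ℚ` by the values of `χ`. -/
noncomputable def ValField {G : Type} (χ : G → ℂ) : IntermediateField ℚ ℂ :=
  IntermediateField.adjoin ℚ (Set.range χ)

/-- Some proper subgroup `H` of `G` has a linear character `μ`, a constituent of the restriction of
the character of `V` to `H`, whose field of values contains the field of values of the character of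
`V` and has degree at most `V(1)` over it. -/
def ProperLinear (G : Type) [Group G] (V : FDRep ℂ G) : Prop :=
  ∃ (H : Subgroup G) (μ : H →* ℂˣ), H ≠ ⊤ ∧
    (∑ᶠ h : H, V.character (h : G) * (((μ h)⁻¹ : ℂˣ) : ℂ)) ≠ 0 ∧
    ValField V.character ≤ ValField (fun h : H => ((μ h : ℂˣ) : ℂ)) ∧
    IntermediateField.relfinrank (ValField V.character)
      (ValField (fun h : H => ((μ h : ℂˣ) : ℂ))) ≤ Module.finrank ℂ V

/-- The set of the elements `j` with `j ^ q = 1` of the group of all `j` modulo the order of `c`
for which `c` and `c ^ j` are conjugate. This group is isomorphic to `N_G(C) / C_G(C)` for the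
cyclic group `C` generated by `c`. -/
def torsAut {G : Type} [Group G] (q : ℕ) (c : G) : Set (ZMod (orderOf c)) :=
  {j | j ^ q = 1 ∧ IsConj c (c ^ j.val)}

/-- The largest `r` for which some `c` in `G` of order prime to `q` has at least `q ^ r` elements
in `torsAut q c`. For a prime `q` this is the largest rank of an elementary abelian `q`-subgroup of
a group `N_G(C) / C_G(C)` with `C` a cyclic subgroup of `G` of order prime to `q`. -/
noncomputable def autRank (q : ℕ) (G : Type) [Group G] : ℕ :=
  sSup {r | ∃ c : G, (orderOf c).Coprime q ∧ q ^ r ≤ (torsAut q c).ncard}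

lemma le_autRank {G : Type} [Group G] [Finite G] {q r : ℕ} (hq : q.Prime) {c : G}
    (hc : (orderOf c).Coprime q) (h : q ^ r ≤ (torsAut q c).ncard) : r ≤ autRank q G := by
  refine le_csSup ⟨Nat.card G, ?_⟩ ⟨c, hc, h⟩
  rintro s ⟨b, -, hb⟩
  have hb' : NeZero (orderOf b) := ⟨(orderOf_pos b).ne'⟩
  have h1 : (torsAut q b).ncard ≤ orderOf b := by
    have h2 := Set.ncard_le_ncard (Set.subset_univ (torsAut q b)) (Set.toFinite _)
    rwa [Set.ncard_univ, Nat.card_zmod] at h2
  have h2 : orderOf b ≤ Nat.card G := Nat.le_of_dvd Nat.card_pos (orderOf_dvd_natCard b)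
  have h3 : s < q ^ s := Nat.lt_pow_self hq.one_lt
  omega

/-- The statement for all nonlinear irreducible characters of groups in which the automizers of
cyclic subgroups have small ranks. -/
theorem result (G : Type) [Group G] [Fintype G]
    (hG : autRank 2 G ≤ 3 ∨ ∀ q ∈ (Nat.card G).primeFactors, q ≠ 2 → autRank q G < q - 1)
    (V : FDRep ℂ G) (hV : CategoryTheory.Simple V) (h1 : 1 < Module.finrank ℂ V) :
    ProperLinear G V := by
  classical
  have hirr := irr_of_simple V hV
  obtain ⟨n, hn, h0, hmin⟩ := exists_cond hirr
  obtain ⟨e, he, hco, hord, h2, Q, M, hk, hQ⟩ := rank_cond hirr hn h0 hmin (dvd_refl n)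
  have hzero : (n / e).primeFactors.card = 0 → e = n := by
    intro h3
    rw [Finset.card_eq_zero, Nat.primeFactors_eq_empty] at h3
    obtain ⟨c, hc⟩ := he
    have he0 : 0 < e := by
      rcases Nat.eq_zero_or_pos e with h4 | h4
      · rw [h4, zero_mul] at hc; omega
      · exact h4
    have h4 : n / e = c := by rw [hc, Nat.mul_div_cancel_left _ he0]
    rw [h4] at h3
    rcases h3 with h5 | h5
    · rw [h5, mul_zero] at hc; omega
    · rw [hc, h5, mul_one]
  have hed : e = n := by
    rcases hG with hG | hG
    · rcases h2 with h2 | ⟨c, hc, h2⟩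
      · exact h2
      · have h3 := le_autRank Nat.prime_two ((Nat.coprime_two_right).mpr hc) h2
        exact hzero (by omega)
    · apply hzero
      have h3 : ∀ q ∈ Q, M q = 0 := by
        intro q hq
        by_contra hMq
        obtain ⟨hq1, hq2, c, hc1, hc2⟩ := hQ q hq
        have h5 := hq1.two_le
        have h4 := le_autRank hq1 hc1 hc2
        have h6 : q ∣ Nat.card G := dvd_of_one_lt_ncard hq1 (c := c) (lt_of_lt_of_le
          (Nat.one_lt_pow (Nat.mul_ne_zero (by omega) hMq) hq1.one_lt) hc2)
        have h7 := hG q (Nat.mem_primeFactors.mpr ⟨hq1, h6, Nat.card_pos.ne'⟩) hq2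
        have h8 : q - 1 ≤ (q - 1) * M q := Nat.le_mul_of_pos_right _ (Nat.pos_of_ne_zero hMq)
        omega
      rw [Finset.sum_eq_zero h3] at hk
      omega
  rw [hed] at hord
  exact proper_of_ord (irred_of_simple V hV) hirr h1 hn h0 hord

end Pool.Agent.Results.MP_79850a_al.AutomizerRank
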