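import Mathlib
import Pool.Agent.Helper606_LC.Pr2

/-!
# Fields of values of irreducible characters of degree less than 8640

Let `G` be a finite group and `χ` a nonlinear irreducible complex character of `G` of degree less
than 8640. Some proper subgroup `H` of `G` has a linear character `μ`, a constituent of the
restriction of `χ` to `H`, whose field of values contains that of `χ` and has degree at most `χ(1)`
over it.
-/

set_option autoImplicit false

namespace Pool.Agent.Results.MP_79850a_al.DegreeBound

open Pool.Agent.Helper606_LC Pool.Agent.W446.AS

/-- The field generated over `ℚ` by the values of `χ`. -/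
noncomputable def ValField {G : Type} (χ : G → ℂ) : IntermediateField ℚ ℂ :=
  IntermediateField.adjoin ℚ (Set.range χ)

/-- Some proper subgroup `H` of `G` has a linear character `μ`, a constituent of the restriction of
the character of `V` to `H`, whose field of values contains the field of values of the character of
`V` and has degree at most `V(1)` over it. -/
def ProperLinear (G : Type) [Group G] (V : FDRep ℂ G) : Prop :=
  ∃ (H : Subgroup G) (μ : H →* ℂˣ), H ≠ ⊤ ∧
    (∑ᶠ h : H, V.character (h : G) * (((μ h)⁻¹ : ℂˣ) : ℂ)) ≠ 0 ∧
    ValField V.character ≤ ValField (fun h : H => ((μ h : ℂˣ) : ℂ)) ∧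
    IntermediateField.relfinrank (ValField V.character)
      (ValField (fun h : H => ((μ h : ℂˣ) : ℂ))) ≤ Module.finrank ℂ V

/-- The statement for all nonlinear irreducible characters of degree less than 8640. -/
theorem result (G : Type) [Group G] [Fintype G] (V : FDRep ℂ G) (hV : CategoryTheory.Simple V)
    (h1 : 1 < Module.finrank ℂ V) (hdeg : Module.finrank ℂ V < 8640) : ProperLinear G V := by
  classical
  have hirr := irr_of_simple V hV
  obtain ⟨n, hn, h0, hmin⟩ := exists_cond hirr
  have hord : HasOrd V.character n := small_degree (ρ := V.ρ) hirr hn h0 hmin hdeg
  exact proper_of_ord (irred_of_simple V hV) hirr h1 hn h0 hord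

end Pool.Agent.Results.MP_79850a_al.DegreeBound
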