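import Mathlib
import Pool.Agent.Helper606_LC.Pr2

/-!
# Fields of values and their subfields

Let `G` be a finite group, `χ` a nonlinear irreducible complex character of `G` of conductor `n`,
`ℓ` a prime and `K` a subfield of the field of values of `χ` whose Galois group over `ℚ` has cyclic
Sylow subgroups for all primes other than `ℓ`. If for every wild prime `p` dividing `n` the field
`K` is not contained in the cyclotomic field of the roots of unity of order dividing `n / p`, or `ℓ`
divides the number of conjugates of `χ` over this field, then some proper subgroup `H` of `G` has a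
linear character `μ`, a constituent of the restriction of `χ` to `H`, whose field of values contains
that of `χ` and has degree at most `χ(1)` over it.
-/

set_option autoImplicit false

namespace Pool.Agent.Results.MP_79850a_al.GaloisCriterion

open Pool.Agent.Helper606_LC Pool.Agent.W446.AS

/-- `G` is `p`-solvable: there is a series `M 0 = 1, …, M r = G` of normal subgroups of `G`, each
contained in the next, in which every index is a power of `p` or prime to `p`. -/
def PSolvable (p : ℕ) (G : Type) [Group G] : Prop :=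
  ∃ (r : ℕ) (M : ℕ → Subgroup G), M 0 = ⊥ ∧ M r = ⊤ ∧ (∀ i, (M i).Normal) ∧
    (∀ i, M i ≤ M (i + 1)) ∧
    ∀ i, (∃ k, (M i).relIndex (M (i + 1)) = p ^ k) ∨ ¬ p ∣ (M i).relIndex (M (i + 1))

/-- A prime `p` is tame for `G` and the exponent `a` if `G` is `p`-solvable, or if for every Sylow
`p`-subgroup `P` of `G` the elements of `P` of order divisible by `p ^ a` lie in a cyclic subgroup,
or if every Sylow `p`-subgroup containing one of these elements contains all of them. -/
def Tame (p a : ℕ) (G : Type) [Group G] : Prop :=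
  PSolvable p G ∨
    (∀ P : Sylow p G, ∃ C : Subgroup G, IsCyclic C ∧ ∀ x ∈ P, p ^ a ∣ orderOf x → x ∈ C) ∨
    ∀ P P' : Sylow p G, (∃ x ∈ P, x ∈ P' ∧ p ^ a ∣ orderOf x) →
      ∀ y ∈ P, p ^ a ∣ orderOf y → y ∈ P'

/-- The cyclotomic field of the roots of unity of order dividing `m`. -/
noncomputable def Cyc (m : ℕ) : IntermediateField ℚ ℂ :=
  IntermediateField.adjoin ℚ {z : ℂ | z ^ m = 1}

/-- The field generated over `ℚ` by the values of `χ`. -/
noncomputable def ValField {G : Type} (χ : G → ℂ) : IntermediateField ℚ ℂ :=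
  IntermediateField.adjoin ℚ (Set.range χ)

/-- `n` is the conductor of `χ`: the least positive integer such that the field of values of `χ`
lies in the cyclotomic field of the roots of unity of order dividing `n`. -/
def IsCond {G : Type} (χ : G → ℂ) (n : ℕ) : Prop :=
  0 < n ∧ ValField χ ≤ Cyc n ∧ ∀ m : ℕ, 0 < m → ValField χ ≤ Cyc m → n ≤ m

/-- The number of conjugates of `χ` under the automorphisms of `ℂ` which fix the roots of unity of
order dividing `m`. -/
noncomputable def numConj {G : Type} (χ : G → ℂ) (m : ℕ) : ℕ :=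
  Set.ncard {η : G → ℂ | ∃ σ : ℂ ≃+* ℂ, (∀ z : ℂ, z ^ m = 1 → σ z = z) ∧ ∀ g, η g = σ (χ g)}

/-- Some proper subgroup `H` of `G` has a linear character `μ`, a constituent of the restriction of
the character of `V` to `H`, whose field of values contains the field of values of the character of
`V` and has degree at most `V(1)` over it. -/
def ProperLinear (G : Type) [Group G] (V : FDRep ℂ G) : Prop :=
  ∃ (H : Subgroup G) (μ : H →* ℂˣ), H ≠ ⊤ ∧
    (∑ᶠ h : H, V.character (h : G) * (((μ h)⁻¹ : ℂˣ) : ℂ)) ≠ 0 ∧
    ValField V.character ≤ ValField (fun h : H => ((μ h : ℂˣ) : ℂ)) ∧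
    IntermediateField.relfinrank (ValField V.character)
      (ValField (fun h : H => ((μ h : ℂˣ) : ℂ))) ≤ Module.finrank ℂ V

lemma tm_of_tame {p a : ℕ} (hp : p.Prime) {G : Type} [Group G] [Finite G] (h : Tame p a G) :
    Tm3 p a G := by
  rcases h with ⟨r, M, h0, hr, hn, hle, hst⟩ | h | h
  · exact Or.inr (psp_of_series r M h0 hr hn hle hp hst)
  · left; left
    intro Q hQ
    obtain ⟨P, hP⟩ := hQ.exists_le_sylow
    obtain ⟨C, hC, hPC⟩ := h P
    exact ⟨C, hC, fun x hx => hPC x (hP hx)⟩
  · left; right
    intro P P' x hx hx' hxa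
    exact h P P' ⟨x, hx, hx', hxa⟩

lemma val_le_iff {G : Type} (χ : G → ℂ) (m : ℕ) : ValField χ ≤ Cyc m ↔ ∀ g, χ g ∈ Cyc m := by
  rw [ValField, IntermediateField.adjoin_le_iff, Set.range_subset_iff]
  rfl

/-- The criterion with a subfield of the field of values and numbers of conjugates. -/
theorem result (G : Type) [Group G] [Fintype G] (V : FDRep ℂ G) (hV : CategoryTheory.Simple V)
    (h1 : 1 < Module.finrank ℂ V) (n : ℕ) (hn : IsCond V.character n) (ℓ : ℕ) (hℓ : ℓ.Prime)
    (K : IntermediateField ℚ ℂ) (hK : K ≤ ValField V.character)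
    (hW : ∀ q : ℕ, q.Prime → q ≠ ℓ → ∀ P : Sylow q (K ≃ₐ[ℚ] K), IsCyclic P)
    (h : ∀ p ∈ n.primeFactors, ¬ Tame p (n.factorization p) G →
      ¬ K ≤ Cyc (n / p) ∨ ℓ ∣ numConj V.character (n / p)) : ProperLinear G V := by
  classical
  have h0 := (val_le_iff _ n).mp hn.2.1
  have hirr := irr_of_simple V hV
  have hmin : ∀ m' : ℕ, 0 < m' → (∀ g, V.character g ∈ Cyc m') → n ≤ m' :=
    fun m' h1 h2 => hn.2.2 m' h1 ((val_le_iff _ m').mpr h2)
  have hord : HasOrd V.character n := by
    refine master_cond hirr hn.1 h0 hmin (dvd_refl n) hK hℓ ?_ hW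
    intro p hp
    obtain ⟨hp1, hp2⟩ := Finset.mem_filter.mp hp
    have h2 := h p hp1 fun h => hp2 (tm_of_tame (Nat.prime_of_mem_primeFactors hp1) h)
    have h3 : n.factorization p - n.factorization p + 1 = 1 := by omega
    rw [h3, pow_one]
    exact h2
  exact proper_of_ord (irred_of_simple V hV) hirr h1 hn.1 h0 hord

end Pool.Agent.Results.MP_79850a_al.GaloisCriterion
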