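import Mathlib
import Pool.Agent.Helper606_LC.Fd3

/-!
# The cyclotomic deficiency of irreducible characters of degree less than 8640

The cyclotomic deficiency of an irreducible complex character of degree less than 8640 of a finite
group is at most the degree.
-/

set_option autoImplicit false

namespace Pool.Agent.Results.MP_fb2360_al.DegreeBound

open Pool.Agent.Helper606_LC Pool.Agent.W446.AS

/-- The cyclotomic field of the roots of unity of order dividing `m`. -/
noncomputable def Cyc (m : ℕ) : IntermediateField ℚ ℂ :=
  IntermediateField.adjoin ℚ {z : ℂ | z ^ m = 1}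

/-- The field generated over `ℚ` by the values of `χ`. -/
noncomputable def ValField {G : Type} (χ : G → ℂ) : IntermediateField ℚ ℂ :=
  IntermediateField.adjoin ℚ (Set.range χ)

/-- `n` is the conductor of `χ`: the least positive integer such that the field of values of `χ`
lies in the cyclotomic field of the roots of unity of order dividing `n`. -/
def IsCond {G : Type} (χ : G → ℂ) (n : ℕ) : Prop :=
  0 < n ∧ ValField χ ≤ Cyc n ∧ ∀ m : ℕ, 0 < m → ValField χ ≤ Cyc m → n ≤ m

/-- The degree of the cyclotomic field of the roots of unity of order dividing `n` over the field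
of values of `χ`. For the conductor `n` of `χ` this is the cyclotomic deficiency of `χ`. -/
noncomputable def deficiency {G : Type} (χ : G → ℂ) (n : ℕ) : ℕ :=
  IntermediateField.relfinrank (ValField χ) (Cyc n)

lemma val_le_iff {G : Type} (χ : G → ℂ) (m : ℕ) : ValField χ ≤ Cyc m ↔ ∀ g, χ g ∈ Cyc m := by
  rw [ValField, IntermediateField.adjoin_le_iff, Set.range_subset_iff]
  rfl

/-- The bound for the cyclotomic deficiency. -/
theorem result (G : Type) [Group G] [Fintype G] (V : FDRep ℂ G) (hV : CategoryTheory.Simple V)
    (hdeg : Module.finrank ℂ V < 8640) (n : ℕ) (hn : IsCond V.character n) :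
    deficiency V.character n ≤ Module.finrank ℂ V := by
  classical
  have h0 := (val_le_iff _ n).mp hn.2.1
  have hirr := irr_of_simple V hV
  have hmin : ∀ m' : ℕ, 0 < m' → (∀ g, V.character g ∈ Cyc m') → n ≤ m' :=
    fun m' h1 h2 => hn.2.2 m' h1 ((val_le_iff _ m').mpr h2)
  have hord : HasOrd V.character n := small_degree (ρ := V.ρ) hirr hn.1 h0 hmin hdeg
  have h1 := defic_of_ord (ρ := V.ρ) hirr hn.1 h0 (dvd_refl n) hord
  have h2 : (Vf (Representation.character V.ρ) ⊔ Qc n).relfinrank (Qc n) = 1 :=
    IntermediateField.relfinrank_eq_one_of_le le_sup_right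
  rw [h2, mul_one] at h1
  exact h1

end Pool.Agent.Results.MP_fb2360_al.DegreeBound
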