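import Mathlib
import Pool.Agent.Helper606_LC.Fd3

/-!
# The cyclotomic deficiency and wild primes

Let `G` be a finite group, `χ` an irreducible complex character of `G` and `n` the conductor of `χ`.
If `d` is a divisor of `n` divisible by at most six wild primes, then the cyclotomic deficiency of
`χ` is at most `χ(1)` times the degree of the cyclotomic field of the roots of unity of order
dividing `n` over the composite of the field of values and the cyclotomic field of the roots of
unity of order dividing `d`. For `d = n` the second factor is `1`. A prime is wild unless `G` is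
`p`-solvable or the elements of large `p`-power order of the Sylow `p`-subgroups are contained in
cyclic subgroups or are not shared by different Sylow `p`-subgroups.
-/

set_option autoImplicit false

namespace Pool.Agent.Results.MP_fb2360_al.SixWildPrimes

open Pool.Agent.Helper606_LC Pool.Agent.W446.AS

/-- `G` is `p`-solvable: there is a series `M 0 = 1, …, M r = G` of normal subgroups of `G`, each
contained in the next, in which every index is a power of `p` or prime to `p`. -/
def PSolvable (p : ℕ) (G : Type) [Group G] : Prop :=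
  ∃ (r : ℕ) (M : ℕ → Subgroup G), M 0 = ⊥ ∧ M r = ⊤ ∧ (∀ i, (M i).Normal) ∧
    (∀ i, M i ≤ M (i + 1)) ∧
    ∀ i, (∃ k, (M i).relIndex (M (i + 1)) = p ^ k) ∨ ¬ p ∣ (M i).relIndex (M (i + 1))

/-- A prime `p` is tame for `G` and the exponent `a` if `G` is `p`-solvable, or if for every Sylow
`p`-subgroup `P` of `G` the elements of `P` of order divisible by `p ^ a` lie in a cyclic subgroup,
or if every Sylow `p`-subgroup containing one of these elements contains all of them. -/
def Tame (p a : ℕ) (G : Type) [Group G] : Prop :=
  PSolvable p G ∨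
    (∀ P : Sylow p G, ∃ C : Subgroup G, IsCyclic C ∧ ∀ x ∈ P, p ^ a ∣ orderOf x → x ∈ C) ∨
    ∀ P P' : Sylow p G, (∃ x ∈ P, x ∈ P' ∧ p ^ a ∣ orderOf x) →
      ∀ y ∈ P, p ^ a ∣ orderOf y → y ∈ P'

open Classical in
/-- The wild primes dividing `d`. -/
noncomputable def wildPrimes (G : Type) [Group G] (d : ℕ) : Finset ℕ :=
  d.primeFactors.filter fun p => ¬ Tame p (d.factorization p) G

/-- The cyclotomic field of the roots of unity of order dividing `m`. -/
noncomputable def Cyc (m : ℕ) : IntermediateField ℚ ℂ :=
  IntermediateField.adjoin ℚ {z : ℂ | z ^ m = 1}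

/-- The field generated over `ℚ` by the values of `χ`. -/
noncomputable def ValField {G : Type} (χ : G → ℂ) : IntermediateField ℚ ℂ :=
  IntermediateField.adjoin ℚ (Set.range χ)

/-- `n` is the conductor of `χ`: the least positive integer such that the field of values of `χ`
lies in the cyclotomic field of the roots of unity of order dividing `n`. -/
def IsCond {G : Type} (χ : G → ℂ) (n : ℕ) : Prop :=
  0 < n ∧ ValField χ ≤ Cyc n ∧ ∀ m : ℕ, 0 < m → ValField χ ≤ Cyc m → n ≤ m

/-- The degree of the cyclotomic field of the roots of unity of order dividing `n` over the field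
of values of `χ`. For the conductor `n` of `χ` this is the cyclotomic deficiency of `χ`. -/
noncomputable def deficiency {G : Type} (χ : G → ℂ) (n : ℕ) : ℕ :=
  IntermediateField.relfinrank (ValField χ) (Cyc n)

lemma tm_of_tame {p a : ℕ} (hp : p.Prime) {G : Type} [Group G] [Finite G] (h : Tame p a G) :
    Tm3 p a G := by
  rcases h with ⟨r, M, h0, hr, hn, hle, hst⟩ | h | h
  · exact Or.inr (psp_of_series r M h0 hr hn hle hp hst)
  · left; left
    intro Q hQ
    obtain ⟨P, hP⟩ := hQ.exists_le_sylow
    obtain ⟨C, hC, hPC⟩ := h P
    exact ⟨C, hC, fun x hx => hPC x (hP hx)⟩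
  · left; right
    intro P P' x hx hx' hxa
    exact h P P' ⟨x, hx, hx', hxa⟩

lemma val_le_iff {G : Type} (χ : G → ℂ) (m : ℕ) : ValField χ ≤ Cyc m ↔ ∀ g, χ g ∈ Cyc m := by
  rw [ValField, IntermediateField.adjoin_le_iff, Set.range_subset_iff]
  rfl

/-- The bound for the cyclotomic deficiency for divisors of the conductor with at most six wild
prime divisors. -/
theorem result (G : Type) [Group G] [Fintype G] (V : FDRep ℂ G) (hV : CategoryTheory.Simple V)
    (n : ℕ) (hn : IsCond V.character n) (d : ℕ) (hd : d ∣ n) (hw : (wildPrimes G d).card ≤ 6) :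
    deficiency V.character n ≤ Module.finrank ℂ V *
      IntermediateField.relfinrank (ValField V.character ⊔ Cyc d) (Cyc n) := by
  classical
  have h := (val_le_iff _ n).mp hn.2.1
  have hirr := irr_of_simple V hV
  have hmin : ∀ m' : ℕ, 0 < m' → (∀ g, V.character g ∈ Cyc m') → n ≤ m' :=
    fun m' h1 h2 => hn.2.2 m' h1 ((val_le_iff _ m').mpr h2)
  obtain ⟨e, he, hco, hord, hE, hlast⟩ := missed_cond3 hirr hn.1 h hmin hd (fun _ => 1)
    (fun _ _ => Nat.one_pos)
  have hsub : wildQ G d.factorization d.primeFactors ⊆ wildPrimes G d := by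
    intro p hp
    obtain ⟨hp1, hp2⟩ := Finset.mem_filter.mp hp
    exact Finset.mem_filter.mpr
      ⟨hp1, fun h => hp2 (tm_of_tame (Nat.prime_of_mem_primeFactors hp1) h)⟩
  have hed : e = d := by
    rcases hlast with h1 | h1
    · exact h1
    · simp only [Finset.sum_const, smul_eq_mul, mul_one] at h1
      have h2 := Finset.card_le_card hsub
      have hd0 : 0 < d := Nat.pos_of_dvd_of_pos hd hn.1
      have h3 : (d / e).primeFactors.card = 0 := by omega
      rw [Finset.card_eq_zero, Nat.primeFactors_eq_empty] at h3
      obtain ⟨c, hc⟩ := he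
      have he0 : 0 < e := by
        rcases Nat.eq_zero_or_pos e with h4 | h4
        · rw [h4, zero_mul] at hc; omega
        · exact h4
      have h4 : d / e = c := by rw [hc, Nat.mul_div_cancel_left _ he0]
      rw [h4] at h3
      rcases h3 with h5 | h5
      · rw [h5, mul_zero] at hc; omega
      · rw [hc, h5, mul_one]
  rw [hed] at hord
  exact defic_of_ord (ρ := V.ρ) hirr hn.1 h hd hord

end Pool.Agent.Results.MP_fb2360_al.SixWildPrimes
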